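import Mathlib

/-!
# Random subsets of hypercube neighbourhoods: counting
-/

set_option autoImplicit false

open Finset

namespace X73.HC

/-- the least `k` for which some colouring with signs gives every set of the family a sum of
absolute value at most `k` -/
noncomputable def disc {V J : Type} (S : J → Finset V) : ℕ :=
  sInf {k : ℕ | ∃ χ : V → ℤ, (∀ x, χ x = 1 ∨ χ x = -1) ∧ ∀ j, |∑ x ∈ S j, χ x| ≤ (k : ℤ)}

theorem disc_le {V J : Type} (S : J → Finset V) (k : ℕ) (χ : V → ℤ)
    (hχ : ∀ x, χ x = 1 ∨ χ x = -1) (h : ∀ j, |∑ x ∈ S j, χ x| ≤ (k : ℤ)) : disc S ≤ k :=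
  Nat.sInf_le ⟨χ, hχ, h⟩

theorem disc_spec {V J : Type} [Fintype J] (S : J → Finset V) :
    ∃ χ : V → ℤ, (∀ x, χ x = 1 ∨ χ x = -1) ∧ ∀ j, |∑ x ∈ S j, χ x| ≤ (disc S : ℤ) := by
  have hne : {k : ℕ | ∃ χ : V → ℤ, (∀ x, χ x = 1 ∨ χ x = -1) ∧
      ∀ j, |∑ x ∈ S j, χ x| ≤ (k : ℤ)}.Nonempty := by
    refine ⟨∑ j, (S j).card, fun _ => 1, fun _ => Or.inl rfl, fun j => ?_⟩
    rw [sum_const, nsmul_eq_mul, mul_one, Nat.abs_cast]
    exact_mod_cast Finset.single_le_sum (f := fun j => (S j).card) (fun _ _ => Nat.zero_le _)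
      (mem_univ j)
  exact Nat.sInf_mem hne

theorem symm_card {V : Type} [DecidableEq V] (A : Finset V) (χ : V → ℤ)
    (hχ : ∀ x, χ x = 1 ∨ χ x = -1) (T : Finset V) (hT : T ⊆ A) :
    ((symmDiff T (A.filter fun x => χ x = -1)).card : ℤ) =
      ∑ x ∈ T, χ x + ((A.filter fun x => χ x = -1).card : ℤ) := by
  set P := A.filter fun x => χ x = -1 with hP
  have h1 : ∑ x ∈ T, χ x = ((T \ P).card : ℤ) - ((T ∩ P).card : ℤ) := by
    rw [← Finset.sum_sdiff (s₁ := T ∩ P) (s₂ := T) inter_subset_left]
    have e1 : T \ (T ∩ P) = T \ P := by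
      ext x; simp only [mem_sdiff, mem_inter]; tauto
    rw [e1]
    have e2 : ∑ x ∈ T \ P, χ x = ((T \ P).card : ℤ) := by
      rw [Finset.sum_congr rfl (g := fun _ => (1 : ℤ))]
      · simp
      · intro x hx
        rw [mem_sdiff] at hx
        rcases hχ x with h | h
        · exact h
        · exact absurd (mem_filter.2 ⟨hT hx.1, h⟩) hx.2
    have e3 : ∑ x ∈ T ∩ P, χ x = -((T ∩ P).card : ℤ) := by
      rw [Finset.sum_congr rfl (g := fun _ => (-1 : ℤ))]
      · simp
      · intro x hx
        rw [mem_inter, hP, mem_filter] at hx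
        exact hx.2.2
    rw [e2, e3]; ring
  have h2 : (symmDiff T P).card = (T \ P).card + (P \ T).card := by
    rw [symmDiff_def, Finset.sup_eq_union]
    apply Finset.card_union_of_disjoint
    rw [Finset.disjoint_left]
    intro x hx hx'
    rw [mem_sdiff] at hx hx'
    exact hx'.2 hx.1
  have h3 : (P \ T).card + (T ∩ P).card = P.card := by
    rw [inter_comm]
    exact Finset.card_sdiff_add_card_inter P T
  rw [h2, h1]
  push_cast
  have h3' : ((P \ T).card : ℤ) + ((T ∩ P).card : ℤ) = (P.card : ℤ) := by exact_mod_cast h3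
  linarith

theorem point_count {V : Type} [DecidableEq V] (A : Finset V) (χ : V → ℤ)
    (hχ : ∀ x, χ x = 1 ∨ χ x = -1) (m : ℤ) :
    (A.powerset.filter fun T => ∑ x ∈ T, χ x = m).card ≤ A.card.choose (A.card / 2) := by
  set P := A.filter fun x => χ x = -1 with hP
  have h1 : (A.powerset.filter fun T => ∑ x ∈ T, χ x = m).card ≤
      (A.powersetCard (m + (P.card : ℤ)).toNat).card := by
    refine Finset.card_le_card_of_injOn (fun T => symmDiff T P) ?_ ?_
    · intro T hT
      rw [Finset.mem_coe, mem_filter, mem_powerset] at hT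
      rw [Finset.mem_coe, mem_powersetCard]
      refine ⟨?_, ?_⟩
      · intro x hx
        rw [Finset.mem_symmDiff] at hx
        rcases hx with h | h
        · exact hT.1 h.1
        · exact (mem_filter.1 h.1).1
      · have h := symm_card A χ hχ T hT.1
        rw [hT.2, ← hP] at h
        rw [← h, Int.toNat_natCast]
    · intro T _ T' _ h
      exact symmDiff_left_injective P h
  refine h1.trans ?_
  rw [card_powersetCard]
  exact Nat.choose_le_middle _ _

theorem window_count {V : Type} [DecidableEq V] (A : Finset V) (χ : V → ℤ)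
    (hχ : ∀ x, χ x = 1 ∨ χ x = -1) (K : ℕ) :
    (A.powerset.filter fun T => |∑ x ∈ T, χ x| ≤ (K : ℤ)).card ≤
      (2 * K + 1) * A.card.choose (A.card / 2) := by
  have h1 : (A.powerset.filter fun T => |∑ x ∈ T, χ x| ≤ (K : ℤ)) ⊆
      (Finset.Icc (-(K : ℤ)) K).biUnion fun m => A.powerset.filter fun T => ∑ x ∈ T, χ x = m := by
    intro T hT
    rw [mem_filter] at hT
    rw [mem_biUnion]
    exact ⟨_, Finset.mem_Icc.2 (abs_le.1 hT.2), mem_filter.2 ⟨hT.1, rfl⟩⟩
  refine (Finset.card_le_card h1).trans (Finset.card_biUnion_le.trans ?_)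
  refine (Finset.sum_le_sum fun m _ => point_count A χ hχ m).trans ?_
  rw [sum_const, smul_eq_mul, Int.card_Icc]
  apply Nat.mul_le_mul_right
  have : ((K : ℤ) + 1 - -(K : ℤ)).toNat = 2 * K + 1 := by omega
  rw [this]

/-- upper bound for the middle binomial coefficient -/
theorem central_sq (n : ℕ) : (2 * n + 1) * Nat.centralBinom n ^ 2 ≤ 16 ^ n := by
  induction n with
  | zero => simp
  | succ n ih =>
    have h := Nat.succ_mul_centralBinom_succ n
    -- (n+1) * C(n+1) = 2 * (2n+1) * C(n)
    have h2 : (n + 1) ^ 2 * Nat.centralBinom (n + 1) ^ 2 =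
        4 * (2 * n + 1) * ((2 * n + 1) * Nat.centralBinom n ^ 2) := by
      have : ((n + 1) * Nat.centralBinom (n + 1)) ^ 2 =
          (2 * (2 * n + 1) * Nat.centralBinom n) ^ 2 := by rw [h]
      nlinarith [this]
    have h3 : (n + 1) ^ 2 * ((2 * (n + 1) + 1) * Nat.centralBinom (n + 1) ^ 2) ≤
        (n + 1) ^ 2 * 16 ^ (n + 1) := by
      calc (n + 1) ^ 2 * ((2 * (n + 1) + 1) * Nat.centralBinom (n + 1) ^ 2)
          = (2 * n + 3) * ((n + 1) ^ 2 * Nat.centralBinom (n + 1) ^ 2) := by ring
        _ = (2 * n + 3) * (4 * (2 * n + 1)) * ((2 * n + 1) * Nat.centralBinom n ^ 2) := by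
          rw [h2]; ring
        _ ≤ (16 * (n + 1) ^ 2) * 16 ^ n := by
          refine Nat.mul_le_mul ?_ ih
          nlinarith
        _ = (n + 1) ^ 2 * 16 ^ (n + 1) := by ring
    exact Nat.le_of_mul_le_mul_left h3 (by positivity)

theorem middle_sq (n : ℕ) : (n + 1) * (n.choose (n / 2)) ^ 2 ≤ 4 ^ n := by
  rcases Nat.even_or_odd' n with ⟨m, rfl | rfl⟩
  · have h := central_sq m
    rw [Nat.centralBinom_eq_two_mul_choose] at h
    have e1 : 2 * m / 2 = m := by omega
    rw [e1]
    refine h.trans (le_of_eq ?_)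
    rw [pow_mul]; norm_num
  · have h := central_sq (m + 1)
    have e1 : (2 * m + 1) / 2 = m := by omega
    rw [e1]
    have e2 : Nat.centralBinom (m + 1) = 2 * (2 * m + 1).choose m := by
      rw [Nat.centralBinom_eq_two_mul_choose]
      have : 2 * (m + 1) = (2 * m + 1) + 1 := by ring
      rw [this, Nat.choose_succ_succ]
      have h2 : (2 * m + 1).choose (m + 1) = (2 * m + 1).choose m := by
        rw [← Nat.choose_symm_of_eq_add]; omega
      rw [h2]; ring
    rw [e2] at h
    have e3 : (16 : ℕ) ^ (m + 1) = 4 * 4 ^ (2 * m + 1) := by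
      rw [pow_succ, pow_succ, pow_mul]; norm_num; ring
    rw [e3] at h
    nlinarith [h]

theorem middle_le (n : ℕ) : ((n.choose (n / 2) : ℕ) : ℝ) ≤ 2 ^ n / Real.sqrt (n + 1) := by
  have h := middle_sq n
  have hR : ((n : ℝ) + 1) * ((n.choose (n / 2) : ℕ) : ℝ) ^ 2 ≤ 4 ^ n := by exact_mod_cast h
  have hs : 0 < Real.sqrt ((n : ℝ) + 1) := Real.sqrt_pos.2 (by positivity)
  rw [le_div_iff₀ hs]
  apply le_of_sq_le_sq _ (by positivity)
  rw [mul_pow, Real.sq_sqrt (by positivity), ← pow_mul, mul_comm n 2, pow_mul]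
  norm_num
  linarith

variable {n : ℕ}

/-- the neighbours of `v` in the hypercube -/
def nbhd (v : Fin n → Bool) : Finset (Fin n → Bool) :=
  univ.filter fun u => (univ.filter fun i => u i ≠ v i).card = 1

theorem mem_nbhd (u v : Fin n → Bool) : u ∈ nbhd v ↔ ∃ i, u = Function.update v i (!(v i)) := by
  unfold nbhd
  rw [mem_filter, card_eq_one]
  constructor
  · rintro ⟨_, i, hi⟩
    refine ⟨i, funext fun j => ?_⟩
    by_cases hj : j = i
    · subst hj
      rw [Function.update_self]
      have : j ∈ univ.filter fun i => u i ≠ v i := by rw [hi]; exact mem_singleton_self _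
      have h2 := (mem_filter.1 this).2
      cases h3 : u j <;> cases h4 : v j <;> simp_all
    · rw [Function.update_of_ne hj]
      by_contra h
      have : j ∈ univ.filter fun i => u i ≠ v i := mem_filter.2 ⟨mem_univ _, h⟩
      rw [hi, mem_singleton] at this
      exact hj this
  · rintro ⟨i, rfl⟩
    refine ⟨mem_univ _, i, ?_⟩
    ext j
    rw [mem_filter, mem_singleton]
    constructor
    · rintro ⟨_, h⟩
      by_contra hj
      exact h (Function.update_of_ne hj _ _)
    · rintro rfl
      refine ⟨mem_univ _, ?_⟩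
      rw [Function.update_self]
      cases v j <;> simp

theorem nbhd_symm (u v : Fin n → Bool) : u ∈ nbhd v ↔ v ∈ nbhd u := by
  unfold nbhd
  simp only [mem_filter, mem_univ, true_and, ne_comm]

theorem card_nbhd (v : Fin n → Bool) : (nbhd v).card = n := by
  have h1 : nbhd v = univ.image fun i => Function.update v i (!(v i)) := by
    ext u
    rw [mem_nbhd, mem_image]
    constructor
    · rintro ⟨i, h⟩; exact ⟨i, mem_univ _, h.symm⟩
    · rintro ⟨i, _, h⟩; exact ⟨i, h.symm⟩
  rw [h1, card_image_of_injective, card_univ, Fintype.card_fin]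
  intro i j hij
  by_contra hne
  have h2 := congrFun hij i
  simp only [Function.update_self, Function.update_of_ne hne] at h2
  cases h : v i <;> simp [h] at h2

/-- all families `(S_v)` with `S_v ⊆ N(v)` -/
def families (n : ℕ) : Finset ((Fin n → Bool) → Finset (Fin n → Bool)) :=
  Fintype.piFinset fun v => (nbhd v).powerset

theorem mem_families (S : (Fin n → Bool) → Finset (Fin n → Bool)) :
    S ∈ families n ↔ ∀ v, S v ⊆ nbhd v := by
  unfold families
  simp [Fintype.mem_piFinset]

theorem card_families (n : ℕ) : (families n).card = (2 ^ n) ^ 2 ^ n := by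
  unfold families
  rw [Fintype.card_piFinset]
  simp [card_nbhd]

theorem count_low (n K : ℕ) : ((families n).filter fun S => disc S ≤ K).card ≤
    (2 * ((2 * K + 1) * n.choose (n / 2))) ^ 2 ^ n := by
  classical
  set sg : ((Fin n → Bool) → Bool) → (Fin n → Bool) → ℤ := fun b x => if b x then 1 else -1
    with hsg
  have hsgn : ∀ b x, sg b x = 1 ∨ sg b x = -1 := by
    intro b x
    by_cases h : b x = true
    · left; simp [hsg, h]
    · right; simp [hsg, h]
  have h1 : ((families n).filter fun S => disc S ≤ K) ⊆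
      (univ : Finset ((Fin n → Bool) → Bool)).biUnion fun b =>
        Fintype.piFinset fun v => (nbhd v).powerset.filter fun T => |∑ x ∈ T, sg b x| ≤ (K : ℤ) := by
    intro S hS
    rw [mem_filter, mem_families] at hS
    obtain ⟨χ, hχ, hχ2⟩ := disc_spec S
    rw [mem_biUnion]
    refine ⟨fun x => decide (χ x = 1), mem_univ _, ?_⟩
    rw [Fintype.mem_piFinset]
    intro v
    rw [mem_filter, mem_powerset]
    refine ⟨hS.1 v, ?_⟩
    have e1 : sg (fun x => decide (χ x = 1)) = χ := by
      funext x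
      rcases hχ x with h | h
      · simp [hsg, h]
      · simp [hsg, h]
    rw [e1]
    exact (hχ2 v).trans (by exact_mod_cast hS.2)
  refine (Finset.card_le_card h1).trans (Finset.card_biUnion_le.trans ?_)
  have h2 : ∀ b : (Fin n → Bool) → Bool, (Fintype.piFinset fun v => (nbhd v).powerset.filter
      fun T => |∑ x ∈ T, sg b x| ≤ (K : ℤ)).card ≤ ((2 * K + 1) * n.choose (n / 2)) ^ 2 ^ n := by
    intro b
    rw [Fintype.card_piFinset]
    have h3 : ∀ v : Fin n → Bool, ((nbhd v).powerset.filter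
        fun T => |∑ x ∈ T, sg b x| ≤ (K : ℤ)).card ≤ (2 * K + 1) * n.choose (n / 2) := by
      intro v
      have := window_count (nbhd v) (sg b) (hsgn b) K
      rwa [card_nbhd] at this
    refine (Finset.prod_le_prod' fun v _ => h3 v).trans ?_
    rw [prod_const, card_univ]
    simp
  refine (Finset.sum_le_sum fun b _ => h2 b).trans ?_
  rw [sum_const, card_univ, smul_eq_mul, mul_pow (2 : ℕ)]
  apply le_of_eq
  congr 1
  simp

theorem frac_low (n K : ℕ) : (((families n).filter fun S => disc S ≤ K).card : ℝ) ≤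
    (2 * (2 * K + 1) / Real.sqrt (n + 1)) ^ 2 ^ n * ((families n).card : ℝ) := by
  have h1 : (((families n).filter fun S => disc S ≤ K).card : ℝ) ≤
      (2 * ((2 * K + 1) * ((n.choose (n / 2) : ℕ) : ℝ))) ^ 2 ^ n := by
    exact_mod_cast count_low n K
  refine h1.trans ?_
  rw [card_families]
  push_cast
  rw [← mul_pow]
  apply pow_le_pow_left₀ (by positivity)
  have h2 := middle_le n
  calc 2 * ((2 * (K : ℝ) + 1) * ((n.choose (n / 2) : ℕ) : ℝ))
      ≤ 2 * ((2 * (K : ℝ) + 1) * (2 ^ n / Real.sqrt (n + 1))) := by gcongr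
    _ = 2 * (2 * K + 1) / Real.sqrt (n + 1) * 2 ^ n := by ring

end X73.HC
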