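import Mathlib
import Pool.Agent.X73.HC.Lower
import Pool.Agent.H167R2.KNLin

/-!
# Random subsets of hypercube neighbourhoods: upper bound
-/

set_option autoImplicit false

open Finset

namespace X73.HC

theorem one_add_log_le (n : ℕ) (hn : 1 ≤ n) :
    (1 + Real.log n) ^ 3 ≤ 216 * Real.sqrt n := by
  have hn1 : (1 : ℝ) ≤ n := by exact_mod_cast hn
  have hn0 : (0 : ℝ) ≤ n := by linarith
  set t : ℝ := (n : ℝ) ^ (1 / 6 : ℝ) with ht
  have ht1 : 1 ≤ t := Real.one_le_rpow hn1 (by norm_num)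
  have h1 : Real.log n = 6 * Real.log t := by
    rw [ht, Real.log_rpow (by linarith)]; ring
  have h2 : Real.log t ≤ t - 1 := Real.log_le_sub_one_of_pos (by linarith)
  have h3 : 0 ≤ Real.log n := Real.log_nonneg hn1
  have h4 : 1 + Real.log n ≤ 6 * t := by linarith
  have h5 : t ^ 3 = Real.sqrt n := by
    rw [ht, ← Real.rpow_natCast, ← Real.rpow_mul hn0, Real.sqrt_eq_rpow]
    norm_num
  calc (1 + Real.log n) ^ 3 ≤ (6 * t) ^ 3 := by
        apply pow_le_pow_left₀ (by linarith) h4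
    _ = 216 * t ^ 3 := by ring
    _ = 216 * Real.sqrt n := by rw [h5]

theorem upper {n : ℕ} (hn : 1 ≤ n) (S : (Fin n → Bool) → Finset (Fin n → Bool))
    (hS : ∀ v, S v ⊆ nbhd v) :
    ∃ χ : (Fin n → Bool) → ℤ, (∀ x, χ x = 1 ∨ χ x = -1) ∧
      ∀ v, |((∑ x ∈ S v, χ x : ℤ) : ℝ)| ≤ 100000000000 * Real.sqrt n := by
  classical
  have hn1 : (1 : ℝ) ≤ n := by exact_mod_cast hn
  have hn0 : (0 : ℝ) < n := by linarith
  have hs0 : 0 < Real.sqrt n := Real.sqrt_pos.2 hn0
  have hs1 : 1 ≤ Real.sqrt n := by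
    rw [Real.one_le_sqrt]; exact hn1
  set δ : ℝ := 1 / Real.sqrt n with hδ
  have hδ0 : 0 < δ := by positivity
  have hδ1 : δ ≤ 1 := by
    rw [hδ, div_le_one hs0]; exact hs1
  have hδ2 : δ ^ 2 = 1 / n := by
    rw [hδ, div_pow, Real.sq_sqrt hn0.le, one_pow]
  set a : (Fin n → Bool) → (Fin n → Bool) → ℝ := fun v u => if u ∈ S v then δ else 0 with ha
  have hent : ∀ v u, |a v u| ≤ δ := by
    intro v u
    simp only [ha]
    split_ifs
    · rw [abs_of_pos hδ0]
    · rw [abs_zero]; exact hδ0.le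
  have hcol : ∀ u, ∑ v, a v u ^ 2 ≤ 1 := by
    intro u
    have h1 : ∀ v, a v u ^ 2 ≤ if v ∈ nbhd u then δ ^ 2 else 0 := by
      intro v
      simp only [ha]
      by_cases h : u ∈ S v
      · have : v ∈ nbhd u := (nbhd_symm u v).1 (hS v h)
        rw [if_pos h, if_pos this]
      · rw [if_neg h]
        split_ifs
        · rw [zero_pow two_ne_zero]; exact sq_nonneg δ
        · norm_num
    refine (Finset.sum_le_sum fun v _ => h1 v).trans ?_
    rw [← Finset.sum_filter, Finset.filter_mem_eq_inter, Finset.univ_inter, sum_const, card_nbhd,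
      nsmul_eq_mul, hδ2]
    apply le_of_eq
    field_simp
  have hnb : ∀ u, (H167BK.nb a u).card ≤ n ^ 2 := by
    intro u
    have h1 : H167BK.nb a u ⊆ (nbhd u).biUnion fun v => nbhd v := by
      intro w hw
      unfold H167BK.nb at hw
      rw [Finset.mem_filter] at hw
      rw [mem_biUnion]
      rcases hw.2 with h | ⟨v, h1, h2⟩
      · subst h
        have hne : (nbhd w).Nonempty := by
          rw [← card_pos, card_nbhd]; omega
        obtain ⟨v, hv⟩ := hne
        exact ⟨v, hv, (nbhd_symm v w).1 hv⟩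
      · have h3 : u ∈ S v := by
          by_contra h; exact h1 (by simp only [ha]; rw [if_neg h])
        have h4 : w ∈ S v := by
          by_contra h; exact h2 (by simp only [ha]; rw [if_neg h])
        exact ⟨v, (nbhd_symm u v).1 (hS v h3), hS v h4⟩
    refine (Finset.card_le_card h1).trans (Finset.card_biUnion_le.trans ?_)
    simp only [card_nbhd, sum_const, smul_eq_mul]
    rw [sq]
  obtain ⟨y, hy1, hy2⟩ := H167KN.komlos_form2 a δ hδ0 hδ1 hent hcol (n ^ 2)
    (Nat.one_le_pow _ _ hn) hnb 1 (fun _ => 0) (fun _ => by simp)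
  -- logarithms
  set L : ℝ := Real.log n with hL
  have hL0 : 0 ≤ L := Real.log_nonneg hn1
  have hlogδ : Real.log (1 / δ) = L / 2 := by
    rw [hδ, one_div_one_div, Real.log_sqrt hn0.le]
  have hlogΔ : Real.log ((n ^ 2 : ℕ) : ℝ) = 2 * L := by
    rw [Nat.cast_pow, Real.log_pow, ← hL]; norm_num
  have hcube := one_add_log_le n hn
  rw [← hL] at hcube
  have hlam : (1 + L / 2) ^ (3 / 2 : ℝ) ≤ (1 + L) ^ 2 := by
    calc (1 + L / 2) ^ (3 / 2 : ℝ) ≤ (1 + L / 2) ^ (2 : ℝ) :=
          Real.rpow_le_rpow_of_exponent_le (by linarith) (by norm_num)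
      _ ≤ (1 + L) ^ (2 : ℝ) := Real.rpow_le_rpow (by linarith) (by linarith) (by norm_num)
      _ = (1 + L) ^ 2 := by norm_num [Real.rpow_natCast]
  have hkey : ∀ w : ℝ, 0 ≤ w → w ≤ 3 * (1 + L) →
      1 + δ * w * (1 + L / 2) ^ (3 / 2 : ℝ) ≤ 649 := by
    intro w hw0 hw
    have hp : 0 ≤ (1 + L / 2) ^ (3 / 2 : ℝ) := by positivity
    have h1 : δ * w * (1 + L / 2) ^ (3 / 2 : ℝ) ≤ δ * (3 * (1 + L)) * (1 + L) ^ 2 := by
      apply mul_le_mul (mul_le_mul_of_nonneg_left hw hδ0.le) hlam hp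
      positivity
    have h2 : δ * (3 * (1 + L)) * (1 + L) ^ 2 = 3 * (δ * (1 + L) ^ 3) := by ring
    have h3 : δ * (1 + L) ^ 3 ≤ 216 := by
      rw [hδ, one_div, inv_mul_le_iff₀ hs0]
      linarith
    linarith
  have hA : Real.sqrt ((1 + 2 * L) * (1 + L / 2 + Real.log (1 + 2 * L))) ≤ 3 * (1 + L) := by
    have h1 : Real.log (1 + 2 * L) ≤ 2 * L := by
      have := Real.log_le_sub_one_of_pos (show 0 < 1 + 2 * L by linarith)
      linarith
    rw [Real.sqrt_le_left (by linarith)]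
    have h2 : (1 + 2 * L) * (1 + L / 2 + Real.log (1 + 2 * L)) ≤
        (1 + 2 * L) * (1 + L / 2 + 2 * L) := by
      apply mul_le_mul_of_nonneg_left _ (by linarith)
      linarith
    nlinarith
  have hz : Real.log (1 + Real.log (1 + (2 : ℝ) ^ n)) ≤ 2 + L := by
    have h1 : Real.log (1 + (2 : ℝ) ^ n) ≤ n + 1 := by
      have h2 : (1 : ℝ) + 2 ^ n ≤ 2 ^ (n + 1) := by
        have : (1 : ℝ) ≤ 2 ^ n := one_le_pow₀ (by norm_num)
        rw [pow_succ]; linarith
      have h3 := Real.log_le_log (by positivity) h2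
      rw [Real.log_pow] at h3
      have h4 : Real.log 2 ≤ 1 := by
        have := Real.log_two_lt_d9; linarith
      push_cast at h3
      nlinarith
    have h5 : 0 ≤ Real.log (1 + (2 : ℝ) ^ n) := Real.log_nonneg (by
      have : (0 : ℝ) < 2 ^ n := by positivity
      linarith)
    have h6 : Real.log (1 + Real.log (1 + (2 : ℝ) ^ n)) ≤ Real.log (3 * n) := by
      apply Real.log_le_log (by linarith)
      linarith
    rw [Real.log_mul (by norm_num) hn0.ne'] at h6
    have h7 : Real.log 3 ≤ 2 := by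
      have := Real.log_le_sub_one_of_pos (show (0 : ℝ) < 3 by norm_num)
      linarith
    linarith
  have hz0 : 0 ≤ Real.log (1 + Real.log (1 + (2 : ℝ) ^ n)) := by
    apply Real.log_nonneg
    have : 0 ≤ Real.log (1 + (2 : ℝ) ^ n) := Real.log_nonneg (by
      have : (0 : ℝ) < 2 ^ n := by positivity
      linarith)
    linarith
  have hB : Real.sqrt (1 + L / 2 + Real.log (1 + Real.log (1 + (2 : ℝ) ^ n))) ≤ 3 * (1 + L) := by
    rw [Real.sqrt_le_left (by linarith)]
    nlinarith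
  have hbound : ∀ v, |∑ u, a v u * y u| ≤ 70000000 * (649 + 649) := by
    intro v
    have h := hy2 v
    simp only [sub_zero] at h
    refine h.trans ?_
    apply mul_le_mul_of_nonneg_left _ (by norm_num)
    have hcard : ((min (Fintype.card (Fin n → Bool)) (Fintype.card (Fin n → Bool)) : ℕ) : ℝ)
        = 2 ^ n := by
      rw [min_self]; simp
    rw [hcard, hlogδ, hlogΔ]
    have e1 : (H167BK.slog^[1 + 1]) ((2 : ℝ) ^ n) = Real.log (1 + Real.log (1 + (2 : ℝ) ^ n)) := by
      simp [H167BK.slog]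
    rw [e1]
    have h1 := hkey _ (Real.sqrt_nonneg _) hA
    have h2 := hkey _ (Real.sqrt_nonneg _) hB
    have h3 := (min_le_right (((1 + 2 * L) * (1 + L / 2 + Real.log (1 + 2 * L))) ^ (1 / 4 : ℝ))
      _).trans h1
    have h4 := (min_le_right ((1 + L / 2 + Real.log (1 + Real.log (1 + (2 : ℝ) ^ n))) ^
      (1 / 4 : ℝ)) _).trans h2
    rw [Nat.cast_one, one_mul]
    linarith
  refine ⟨fun u => if y u = 1 then 1 else -1, fun u => ?_, fun v => ?_⟩
  · by_cases h : y u = 1
    · left; simp [h]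
    · right; simp [h]
  have e2 : ((∑ x ∈ S v, (fun u => if y u = 1 then (1 : ℤ) else -1) x : ℤ) : ℝ) =
      ∑ x ∈ S v, y x := by
    push_cast
    refine Finset.sum_congr rfl fun x _ => ?_
    rcases eq_or_eq_neg_of_abs_eq (hy1 x) with h | h
    · simp [h]
    · have : y x ≠ 1 := by rw [h]; norm_num
      simp [h]
      norm_num
  have e3 : ∑ u, a v u * y u = δ * ∑ x ∈ S v, y x := by
    rw [mul_sum, ← Finset.sum_subset (subset_univ (S v))]
    · refine Finset.sum_congr rfl fun x hx => ?_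
      simp only [ha]; rw [if_pos hx]
    · intro x _ hx
      simp only [ha]; rw [if_neg hx, zero_mul]
  have h := hbound v
  rw [e3, abs_mul, abs_of_pos hδ0, hδ, one_div, inv_mul_le_iff₀ hs0] at h
  rw [e2]
  nlinarith [h, hs0]

end X73.HC
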